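import Pool.Agent.H86.SF.Cent

/-!
# Contact of the solutions with `D` at all places (row LOC of sfc_modules)
-/

set_option autoImplicit false

namespace Pool.Agent.H86.SF

open MvPolynomial SC
open Pool.Agent.H27.LV (ge deg poleOrder canDeg ge_const)
open Pool.Agent.H3.SF (Itg Bb BB Hm eu grd hes Sfc Crd Cnn Crf Prm nv)
open Pool.Agent.H84.SF

section

variable {k F σ : Type} [Field k] [Field F] [Algebra k F]

/-- the statement of LCS at one point, with its constant -/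
def LP (X : σ → F) (u : Fin 3 → F) (J : MvPolynomial (Fin 3) k) (j0 m : ℕ) (G : F) (α : ℕ)
    (A : MvPolynomial (Fin 3) k) (b : MvPolynomial (Fin 3) F) (s : σ → k) (C : ℕ) : Prop :=
  ∀ (K : Type) [Field K] [Algebra k K] [Algebra.EssFiniteType k K], Algebra.trdeg k K = 1 →
  ∀ (φ : Bb k u →ₐ[k] K) (x : Fin 3 → K) (g : K) (S : Finset (DV k K)),
  Crf u J m G φ x g S → Prm φ → aeval x A ≠ 0 → ∀ D : Derivation k K K, D ≠ 0 →
  ∀ B : MvPolynomial (Fin 3) K, VM3 u φ b B → EqC D x A B → ∀ (v : DV k K) (c : K), c ≠ 0 →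
  v.ord c = poleOrder v x → (∀ (i : σ) (b : Bb k u), (b : F) = X i →
    ge v 1 (c * φ b - algebraMap k K (s i))) →
  nv v x m g ≤ nv v x α (aeval x A) + 4 * nv v x j0 (aeval x J) + C ∧
  (nv v x α (aeval x A) = 0 → nv v x j0 (aeval x J) = 0 → nv v x m g ≤ 1)

end

section

variable {k K : Type} [Field k] [Field K] [Algebra k K] {v : DV k K}

/-- forms at a point with scaled coordinates -/
theorem nv_nonneg {x : Fin 3 → K} {c : K} (hc : c ≠ 0) (hcP : v.ord c = poleOrder v x)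
    (hx : ∀ l, ge v 0 (c * x l)) {A : MvPolynomial (Fin 3) k} {e : ℕ} (hA : A.IsHomogeneous e)
    (hAx : aeval x A ≠ 0) : 0 ≤ nv v x e (aeval x A) := by
  have h1 := ge_aeval (v := v) (y := fun l => c * x l) hx A
  rw [aeval_hs hA] at h1
  rw [← ord_nv hc hcP hAx]
  exact h1.resolve_left (mul_ne_zero (pow_ne_zero _ hc) hAx)

/-- forms which are not zero at the centre -/
theorem nv_zero {σ : Type} {x : Fin 3 → K} {c : K} (hc : c ≠ 0) (hcP : v.ord c = poleOrder v x)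
    {z : σ → K} {s : σ → k} (hz : ∀ i, ge v 1 (c * z i - algebraMap k K (s i)))
    {f : MvPolynomial σ k} {e : ℕ} (hf : f.IsHomogeneous e) (hs : eval s f ≠ 0) :
    aeval z f ≠ 0 ∧ nv v x e (aeval z f) = 0 := by
  have h1 := ge_aeval_sub (v := v) (y := fun i => c * z i) hz f
  rw [aeval_hs hf] at h1
  obtain ⟨h2, h3⟩ := ord_of_cong h1 hs
  have h4 : aeval z f ≠ 0 := right_ne_zero_of_mul h2
  exact ⟨h4, by rw [← ord_nv hc hcP h4]; exact h3⟩

end

/-- sums over finite sets of nonnegative functions -/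
theorem sum_le_finsum' {ι : Type} {f : ι → ℤ} (hfin : (Function.support f).Finite)
    (hf : ∀ v, 0 ≤ f v) (S : Finset ι) : ∑ v ∈ S, f v ≤ ∑ᶠ v, f v := by
  classical
  have h1 : Function.support f ⊆ ((S ∪ hfin.toFinset : Finset ι) : Set ι) := by
    intro v hv
    rw [Finset.coe_union]
    exact Or.inr (by rw [Set.Finite.coe_toFinset]; exact hv)
  rw [finsum_eq_sum_of_support_subset f h1]
  exact Finset.sum_le_sum_of_subset_of_nonneg Finset.subset_union_left fun v _ _ => hf v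

section

variable {k F σ : Type} [Field k] [IsAlgClosed k] [CharZero k] [Field F] [Algebra k F]
  [Fintype σ] [DecidableEq σ]

theorem loc_place (hCNY : T_CNY) (hLCS : T_LCS) {X : σ → F} {u : Fin 3 → F}
    {dd : Fin 3 → Derivation k F F} {J : MvPolynomial (Fin 3) k} {j0 m : ℕ} {G : F}
    {GP : MvPolynomial σ k} (hS : SYd X u dd J j0) (hD : DYd X u dd j0 m G GP) {α : ℕ}
    {A : MvPolynomial (Fin 3) k} {b : MvPolynomial (Fin 3) F} (hb : Cnn u dd J m G α A b)
    {T : Finset (σ → k)} (hT : ∀ s : σ → k, s ≠ 0 → Cone X s → eval s GP = 0 →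
      (∀ U : Fin 3 → MvPolynomial σ k, (∀ l, aeval X (U l) = u l) →
        eval (fun l => eval s (U l)) A = 0) → ∃ t ∈ T, ∃ μ : k, μ ≠ 0 ∧ s = μ • t)
    {Cf : (σ → k) → ℕ} (hCf : ∀ t, t ≠ 0 → Cone X t → eval t GP = 0 →
      LP X u J j0 m G α A b t (Cf t))
    (K : Type) [Field K] [Algebra k K] [Algebra.EssFiniteType k K] (htr : Algebra.trdeg k K = 1)
    (φ : Bb k u →ₐ[k] K) (x : Fin 3 → K) (g : K) (S : Finset (DV k K))
    (hC : Crf u J m G φ x g S) (hP : Prm φ) (hA : aeval x A ≠ 0) (D : Derivation k K K)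
    (hDn : D ≠ 0) (B : MvPolynomial (Fin 3) K) (hB : VM3 u φ b B) (hE : EqC D x A B)
    (v : DV k K) :
    0 ≤ nv v x α (aeval x A) ∧ 0 ≤ nv v x j0 (aeval x J) ∧
    nv v x m g ≤ nv v x α (aeval x A) + 4 * nv v x j0 (aeval x J) +
      ((1 + ∑ t ∈ T, Cf t : ℕ) : ℤ) := by
  obtain ⟨-, c, s, hc, hcP, hs0, hcone, hcs⟩ :=
    hCNY k F σ K htr X u dd J j0 hS φ x hC.cx hC.one v
  obtain ⟨U, hU⟩ := Classical.axiomOfChoice hS.ulin
  have hz : ∀ i, ge v 1 (c * φ (bX hS.Xint i) - algebraMap k K (s i)) := fun i =>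
    hcs i (bX hS.Xint i) rfl
  have hxU : ∀ l, x l = aeval (fun i => φ (bX hS.Xint i)) (U l) := by
    intro l
    rw [← hC.cx l (aeval (bX hS.Xint) (U l)) (by rw [val_bX]; exact (hU l).2)]
    exact phi_bX hS.Xint φ _ (fun _ => rfl) _
  have hgG : g = aeval (fun i => φ (bX hS.Xint i)) GP := by
    rw [← hC.gx (aeval (bX hS.Xint) GP) (by rw [val_bX]; exact hD.val)]
    exact phi_bX hS.Xint φ _ (fun _ => rfl) _
  have hxs : ∀ l, ge v 1 (c * x l - algebraMap k K (eval s (U l))) := by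
    intro l
    have h1 := ge_aeval_sub (v := v) (y := fun i => c * φ (bX hS.Xint i)) hz (U l)
    rw [aeval_hs (hU l).1, pow_one, ← hxU l] at h1
    exact h1
  have hx0 : ∀ l, ge v 0 (c * x l) := by
    intro l
    have h1 := ((hxs l).mono (by norm_num : (0 : ℤ) ≤ 1)).add (ge_const v (eval s (U l)))
    rwa [sub_add_cancel] at h1
  have nA := nv_nonneg hc hcP hx0 hb.hA hA
  have nJ := nv_nonneg hc hcP hx0 hS.Jh hC.Jx
  refine ⟨nA, nJ, ?_⟩
  have hCpos : (1 : ℤ) ≤ ((1 + ∑ t ∈ T, Cf t : ℕ) : ℤ) := by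
    push_cast
    have h0 : (0 : ℤ) ≤ ∑ t ∈ T, (Cf t : ℤ) := Finset.sum_nonneg fun t _ => Int.natCast_nonneg _
    omega
  by_cases hGs : eval s GP = 0
  · by_cases hAs : eval (fun l => eval s (U l)) A = 0
    · obtain ⟨t, htT, μ, hμ, hst⟩ := hT s hs0 hcone hGs (by
        intro U' hU'
        have h1 : ∀ l, eval s (U' l) = eval s (U l) := by
          intro l
          have h2 := hcone.pt (U' l - U l) (by rw [map_sub, hU' l, (hU l).2, sub_self])
          rw [map_sub] at h2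
          exact sub_eq_zero.1 h2
        rw [show (fun l => eval s (U' l)) = fun l => eval s (U l) from funext h1]
        exact hAs)
      have ht0 : t ≠ 0 := by
        rintro rfl
        exact hs0 (by rw [hst, smul_zero])
      have hct : Cone X t := cone_smul hμ (by rw [← hst]; exact hcone)
      have hGt : eval t GP = 0 := by
        rw [hst, eval_hs hD.hG] at hGs
        exact (mul_eq_zero.1 hGs).resolve_left (pow_ne_zero _ hμ)
      have hμ' : algebraMap k K μ⁻¹ ≠ 0 := by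
        rw [Ne, map_eq_zero]
        exact inv_ne_zero hμ
      have h1 := (hCf t ht0 hct hGt K htr φ x g S hC hP hA D hDn B hB hE v
        (algebraMap k K μ⁻¹ * c) (mul_ne_zero hμ' hc)
        (by rw [v.ord_mul' hμ' hc, v.ord_base, zero_add, hcP]) (by
          intro i b hbi
          have h2 := (ge_const v μ⁻¹).mul (hcs i b hbi)
          rw [zero_add] at h2
          have e : algebraMap k K μ⁻¹ * (c * φ b - algebraMap k K (s i)) =
              algebraMap k K μ⁻¹ * c * φ b - algebraMap k K (t i) := by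
            rw [hst, Pi.smul_apply, smul_eq_mul, mul_sub, ← map_mul, inv_mul_cancel_left₀ hμ,
              mul_assoc]
          rwa [e] at h2)).1
      have h3 : (Cf t : ℤ) ≤ ((1 + ∑ t ∈ T, Cf t : ℕ) : ℤ) := by
        have h4 : Cf t ≤ ∑ t ∈ T, Cf t := Finset.single_le_sum (fun _ _ => Nat.zero_le _) htT
        exact_mod_cast h4.trans (Nat.le_add_left _ _)
      omega
    · have hJs : eval (fun l => eval s (U l)) J ≠ 0 := by
        intro h0
        obtain ⟨A', hA'⟩ := hb.dvd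
        apply hAs
        rw [hA', map_mul, h0, zero_mul]
      obtain ⟨C0, hC0⟩ := hLCS k F σ X u dd J j0 m G GP hS hD α A b hb s hs0 hcone hGs
      have h1 := (hC0 K htr φ x g S hC hP hA D hDn B hB hE v c hc hcP hcs).2
        (nv_zero hc hcP hxs hb.hA hAs).2 (nv_zero hc hcP hxs hS.Jh hJs).2
      omega
  · have h1 := (nv_zero (x := x) hc hcP hz hD.hG hGs).2
    rw [← hgG] at h1
    omega

theorem pf_LOC' (hCNY : T_CNY) (hFNY : T_FNY) (hLCS : T_LCS) (X : σ → F) (u : Fin 3 → F)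
    (dd : Fin 3 → Derivation k F F) (J : MvPolynomial (Fin 3) k) (j0 m : ℕ) (G : F)
    (GP : MvPolynomial σ k) (hS : SYd X u dd J j0) (hD : DYd X u dd j0 m G GP) (α : ℕ)
    (A : MvPolynomial (Fin 3) k) (b : MvPolynomial (Fin 3) F) (hb : Cnn u dd J m G α A b)
    (hαm : α < m) :
    ∃ C : ℕ, ∀ (K : Type) [Field K] [Algebra k K] [Algebra.EssFiniteType k K],
  Algebra.trdeg k K = 1 → ∀ (φ : Bb k u →ₐ[k] K) (x : Fin 3 → K) (g : K)
  (S : Finset (DV k K)), Crf u J m G φ x g S → Prm φ → aeval x A ≠ 0 →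
  ∀ D : Derivation k K K, D ≠ 0 → ∀ B : MvPolynomial (Fin 3) K, VM3 u φ b B → EqC D x A B →
  (∀ v : DV k K, nv v x m g ≤ nv v x α (aeval x A) + 4 * nv v x j0 (aeval x J) + C) ∧
  (m : ℤ) * deg k x ≤ (α + 4 * j0) * deg k x + C * S.card := by
  obtain ⟨T, hT⟩ := hFNY k F σ X u dd J j0 m G GP hS hD α A hb.hA hb.ne hαm
  have hex : ∀ t : σ → k, ∃ C : ℕ, t ≠ 0 → Cone X t → eval t GP = 0 →
      LP X u J j0 m G α A b t C := by
    intro t
    by_cases h : t ≠ 0 ∧ Cone X t ∧ eval t GP = 0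
    · obtain ⟨C, hC⟩ := hLCS k F σ X u dd J j0 m G GP hS hD α A b hb t h.1 h.2.1 h.2.2
      exact ⟨C, fun _ _ _ => hC⟩
    · exact ⟨0, fun h1 h2 h3 => absurd ⟨h1, h2, h3⟩ h⟩
  obtain ⟨Cf, hCf⟩ := Classical.axiomOfChoice hex
  refine ⟨1 + ∑ t ∈ T, Cf t, ?_⟩
  intro K _ _ _ htr φ x g S hC hP hA D hDn B hB hE
  have hv := loc_place hCNY hLCS hS hD hb hT hCf K htr φ x g S hC hP hA D hDn B hB hE
  refine ⟨fun v => (hv v).2.2, ?_⟩
  obtain ⟨fA, sA⟩ := sum_nv htr x α (aeval x A)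
  obtain ⟨fJ, sJ⟩ := sum_nv htr x j0 (aeval x J)
  obtain ⟨fg, sg'⟩ := sum_nv htr x m g
  have hsub : (Function.support fun v : DV k K => nv v x m g) ⊆ (S : Set (DV k K)) := by
    intro v hv
    by_contra h
    apply hv
    show v.ord g + (m : ℤ) * poleOrder v x = 0
    rw [hC.off v h]
    ring
  rw [finsum_eq_sum_of_support_subset _ hsub] at sg'
  have h1 := sum_le_finsum' fA (fun v => (hv v).1) S
  have h2 := sum_le_finsum' fJ (fun v => (hv v).2.1) S
  rw [sA] at h1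
  rw [sJ] at h2
  have h3 : ∑ v ∈ S, nv v x m g ≤ ∑ v ∈ S, (nv v x α (aeval x A) +
      4 * nv v x j0 (aeval x J) + ((1 + ∑ t ∈ T, Cf t : ℕ) : ℤ)) :=
    Finset.sum_le_sum fun v _ => (hv v).2.2
  rw [Finset.sum_add_distrib, Finset.sum_add_distrib, ← Finset.mul_sum, Finset.sum_const,
    nsmul_eq_mul, sg'] at h3
  have e : ((S.card : ℕ) : ℤ) * ((1 + ∑ t ∈ T, Cf t : ℕ) : ℤ) =
    ((1 + ∑ t ∈ T, Cf t : ℕ) : ℤ) * (S.card : ℤ) := mul_comm _ _
  rw [e] at h3
  have e2 : ((α : ℤ) + 4 * j0) * deg k x = α * deg k x + 4 * (j0 * deg k x) := by ring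
  rw [e2]
  linarith

end

theorem pf_LOC (hCNY : T_CNY) (hFNY : T_FNY) (hLCS : T_LCS) : T_LOC := by
  intro k F σ _ _ _ _ _ _ _ X u dd J j0 m G GP hS hD α A b hb hαm
  exact pf_LOC' hCNY hFNY hLCS X u dd J j0 m G GP hS hD α A b hb hαm

end Pool.Agent.H86.SF
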