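import Pool.Agent.H86.SF.LOC
import Pool.Agent.H62.HIL.Eig

/-!
# The order of the leading coefficient (row JBD of sfc_modules)
-/

set_option autoImplicit false

namespace Pool.Agent.H86.SF

open MvPolynomial SC
open Pool.Agent.H27.LV (ge deg poleOrder canDeg ge_const)
open Pool.Agent.H84.SM (y1 y2 Near cr dt dp)
open Pool.Agent.H3.SF (Itg Bb BB Hm eu grd hes Sfc Crd Cnn Crf Prm nv)
open Pool.Agent.H84.SF

section

variable {R S : Type} [CommRing R] [CommRing S]

theorem dt_map (f : R →+* S) (a b c : Fin 3 → R) :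
    f (dt a b c) = dt (fun i => f (a i)) (fun i => f (b i)) (fun i => f (c i)) := by
  simp only [dt, dp, cr, map_sum, map_mul, map_sub]

theorem dt_mul (r : R) (a b c : Fin 3 → R) :
    dt (fun i => r * a i) (fun i => r * b i) (fun i => r * c i) = r ^ 3 * dt a b c := by
  simp only [dt, dp, cr, Fin.sum_univ_three]
  ring

end

section

variable {k F : Type} [Field k] [Field F] [Algebra k F] {E : Derivation k F F}

theorem hm_dt {r s t : ℤ} {a b c : Fin 3 → F} (ha : ∀ i, Hm k E r (a i)) (hb : ∀ i, Hm k E s (b i))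
    (hc : ∀ i, Hm k E t (c i)) : Hm k E (r + (s + t)) (dt a b c) := by
  unfold dt dp
  refine Pool.Agent.H62.HIL.hm_sum _ _ fun i _ => ?_
  refine Pool.Agent.H62.HIL.hm_mul (ha i) ?_
  exact Pool.Agent.H62.HIL.hm_sub (Pool.Agent.H62.HIL.hm_mul (hb _) (hc _))
    (Pool.Agent.H62.HIL.hm_mul (hb _) (hc _))

end

section

variable {k F σ : Type} [Field k] [Field F] [Algebra k F]

theorem der_sum (dd : Fin 3 → Derivation k F F) (c : Fin 3 → F) (a : F) :
    (∑ l, c l • dd l) a = ∑ l, c l * dd l a := by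
  rw [Fin.sum_univ_three, Fin.sum_univ_three]
  rfl

/-- substitution of the forms `U` -/
theorem aeval_subst {A : Type} [CommRing A] [Algebra k A] {X : σ → A}
    {U : Fin 3 → MvPolynomial σ k} {x : Fin 3 → A} (h : ∀ l, aeval X (U l) = x l)
    (f : MvPolynomial (Fin 3) k) : aeval X (aeval U f) = aeval x f := by
  rw [hom_aeval (aeval X : MvPolynomial σ k →ₐ[k] A) U f]
  rw [show (fun i => aeval X (U i)) = x from funext h]

/-- the Jacobian determinant in the field -/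
theorem jac_mul (hNRJ : T_NRJ) {X : σ → F} {u : Fin 3 → F}
    {dd : Fin 3 → Derivation k F F} {J : MvPolynomial (Fin 3) k} {j0 m : ℕ} {G : F}
    {GP : MvPolynomial σ k} [Fintype σ] (hS : SYd X u dd J j0) (hD : DYd X u dd j0 m G GP)
    {s : σ → k} {L0 L1 : MvPolynomial σ k} {cX cG : Fin 3 → F} {ε : Os X s →ₐ[k] k}
    {x1 Gs : Os X s} {dX dG : Derivation k (Os X s) (Os X s)}
    (hFr : FrO X s dd m GP L0 L1 cX cG ε x1 Gs dX dG) (hL0 : aeval X L0 ≠ 0)
    {p : Fin 3 → Os X s} (hp : ∀ l, (p l : F) * aeval X L0 = u l) :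
    ((dt p (fun i => dX (p i)) (fun i => dG (p i)) : Os X s) : F) *
      dt (fun l => dd l (aeval X L0)) (fun l => dd l (aeval X L1)) (fun l => dd l G) =
      aeval X L0 ^ (m - 1) := by
  have hE : ∀ f : MvPolynomial σ k, f.IsHomogeneous 1 →
      ∑ l, u l * dd l (aeval X f) = aeval X f := by
    intro f hf
    have h1 := Pool.Agent.H62.HIL.hm_aeval (E := eu u dd) (v := X) (by
      intro i
      show eu u dd (X i) = ((1 : ℤ) : F) * X i
      rw [hS.Xeu i]
      push_cast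
      ring) hf
    have h2 : eu u dd (aeval X f) = (((1 : ℕ) : ℤ) : F) * aeval X f := h1
    have h3 : eu u dd (aeval X f) = ∑ l, u l * dd l (aeval X f) := by
      unfold eu
      exact der_sum _ _ _
    rw [← h3, h2]
    push_cast
    ring
  have hG : ∑ l, u l * dd l G = m * G := by
    have h1 : eu u dd G = ((m : ℤ) : F) * G := hD.crd.hom
    have h3 : eu u dd G = ∑ l, u l * dd l G := by
      unfold eu
      exact der_sum _ _ _
    rw [← h3, h1]
    push_cast
    ring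
  have hs : ∀ (c : Fin 3 → F) (a : F), (∑ l, c l • dd l) a = ∑ l, c l * dd l a := by
    intro c a
    exact der_sum _ _ _
  have h1 := hNRJ k F u dd hS.ddu (aeval X L0) (aeval X L1) G m hL0
    (le_trans (by norm_num) hD.two) (hE L0 hFr.l0) (hE L1 hFr.l1) hG cX cG
    ⟨by rw [← hs]; exact hFr.der.x0, by rw [← hs]; exact hFr.der.x1,
      by rw [← hs, ← hD.val]; exact hFr.der.x2⟩
    ⟨by rw [← hs]; exact hFr.der.g0, by rw [← hs]; exact hFr.der.g1,
      by rw [← hs, ← hD.val]; exact hFr.der.g2⟩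
  have hpi : (fun i => u i / aeval X L0) = fun i => (p i : F) := by
    funext i
    rw [← hp i, mul_div_cancel_right₀ _ hL0]
  have e : ((dt p (fun i => dX (p i)) (fun i => dG (p i)) : Os X s) : F) =
      dt (fun i => u i / aeval X L0) (fun i => (∑ l, cX l • dd l) (u i / aeval X L0))
      (fun i => (∑ l, cG l • dd l) (u i / aeval X L0)) := by
    have h2 := dt_map ((Os X s).val : Os X s →+* F) p (fun i => dX (p i)) (fun i => dG (p i))
    have h3 : (fun i => (∑ l, cX l • dd l) (u i / aeval X L0)) = fun i => ((dX (p i) : Os X s) : F) := by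
      funext i
      rw [hFr.dX, ← congrFun hpi i]
    have h4 : (fun i => (∑ l, cG l • dd l) (u i / aeval X L0)) = fun i => ((dG (p i) : Os X s) : F) := by
      funext i
      rw [hFr.dG, ← congrFun hpi i]
    rw [h3, h4, hpi]
    exact h2
  rw [e]
  exact h1

end

section

variable {k F σ K : Type} [Field k] [IsAlgClosed k] [CharZero k] [Field F] [Algebra k F]
  [Fintype σ] [Field K] [Algebra k K] [Algebra.EssFiniteType k K]

theorem jbd (hNRJ : T_NRJ) (hHDD : T_HDD) (hCNY : T_CNY) (htr : Algebra.trdeg k K = 1)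
    {X : σ → F} {u : Fin 3 → F} {dd : Fin 3 → Derivation k F F} {J : MvPolynomial (Fin 3) k}
    {j0 m : ℕ} {G : F} {GP : MvPolynomial σ k} (hS : SYd X u dd J j0)
    (hD : DYd X u dd j0 m G GP) {s : σ → k} (hcone : Cone X s) {L0 L1 : MvPolynomial σ k}
    {cX cG : Fin 3 → F} {ε : Os X s →ₐ[k] k} {x1 Gs : Os X s}
    {dX dG : Derivation k (Os X s) (Os X s)}
    (hFr : FrO X s dd m GP L0 L1 cX cG ε x1 Gs dX dG) {α : ℕ} {A : MvPolynomial (Fin 3) k}
    {b : MvPolynomial (Fin 3) F} (hb : Cnn u dd J m G α A b) {p : Fin 3 → Os X s} {A1 : Os X s}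
    {b1 : MvPolynomial (Fin 3) (Os X s)} (hL : Lft X s u J j0 L0 α A b p A1 b1)
    {φ : Bb k u →ₐ[k] K} {x : Fin 3 → K} {g : K} {S : Finset (DV k K)}
    (hC : Crf u J m G φ x g S) (hA : aeval x A ≠ 0) {v : DV k K} {c : K} (hc : c ≠ 0)
    (hcP : v.ord c = poleOrder v x)
    (hcs : ∀ (i : σ) (b : Bb k u), (b : F) = X i → ge v 1 (c * φ b - algebraMap k K (s i)))
    {z : σ → K} (hz : ∀ (i : σ) (b : Bb k u), (b : F) = X i → φ b = z i)
    {y : Os X s →ₐ[k] K} (hy : HmK X s z ε v y) :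
    y (Aloc dX dG p A1) ≠ 0 ∧
    v.ord (y (Aloc dX dG p A1)) ≤ nv v x α (aeval x A) + 4 * nv v x j0 (aeval x J) ∧
    y Gs ≠ 0 ∧ v.ord (y Gs) = nv v x m g := by
  have hzb : ∀ i, φ (bX hS.Xint i) = z i := fun i => hz i (bX hS.Xint i) rfl
  have hzs : ∀ i, ge v 1 (c * z i - algebraMap k K (s i)) := by
    intro i
    rw [← hzb i]
    exact hcs i (bX hS.Xint i) rfl
  obtain ⟨U, hU⟩ := Classical.axiomOfChoice hS.ulin
  have hUh : ∀ {f : MvPolynomial (Fin 3) k} {e : ℕ}, f.IsHomogeneous e →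
      (aeval U f : MvPolynomial σ k).IsHomogeneous e := by
    intro f e hf
    have h1 := hf.aeval U (n := 1) fun i => (hU i).1
    rwa [one_mul] at h1
  have hxU : ∀ l, aeval z (U l) = x l := by
    intro l
    rw [← hC.cx l (aeval (bX hS.Xint) (U l)) (by rw [val_bX]; exact (hU l).2)]
    exact (phi_bX hS.Xint φ _ hzb _).symm
  have hgG : aeval z GP = g := by
    rw [← hC.gx (aeval (bX hS.Xint) GP) (by rw [val_bX]; exact hD.val)]
    exact (phi_bX hS.Xint φ _ hzb _).symm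
  have hUX : ∀ f : MvPolynomial (Fin 3) k, aeval X (aeval U f) = aeval u f :=
    aeval_subst fun l => (hU l).2
  have hUz : ∀ f : MvPolynomial (Fin 3) k, aeval z (aeval U f) = aeval x f :=
    aeval_subst hxU
  obtain ⟨hla, hlaP⟩ := nv_zero (x := x) hc hcP hzs hFr.l0 hFr.v0
  have hlaP' : v.ord (aeval z L0) = -(poleOrder v x : ℤ) := by
    have h1 : v.ord (aeval z L0) + ((1 : ℕ) : ℤ) * poleOrder v x = 0 := hlaP
    push_cast at h1
    linarith
  have hL0X : aeval X L0 ≠ 0 := fun h => hFr.v0 (hcone.pt _ h)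
  -- A1
  have hA1 : y A1 * aeval z L0 ^ (α + j0) = aeval x J * aeval x A := by
    have h1 := hy.val A1 (α + j0) (aeval U (J * A)) (L0 ^ (α + j0)) ⟨by
        have h2 := hUh (hS.Jh.mul hb.hA)
        rwa [add_comm j0 α] at h2, by
        have h2 := hFr.l0.pow (α + j0)
        rwa [one_mul] at h2, by
        rw [map_pow, hUX, map_mul]
        exact hL.hA⟩
    rw [map_pow, hUz, map_mul] at h1
    exact h1
  have hA1n : y A1 ≠ 0 := by
    intro h0
    rw [h0, zero_mul] at hA1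
    exact mul_ne_zero hC.Jx hA hA1.symm
  have hA1v : v.ord (y A1) = nv v x α (aeval x A) + nv v x j0 (aeval x J) := by
    have h1 : v.ord (y A1 * aeval z L0 ^ (α + j0)) = v.ord (aeval x J * aeval x A) := by rw [hA1]
    rw [v.ord_mul' hA1n (pow_ne_zero _ hla), v.ord_pow, hlaP', v.ord_mul' hC.Jx hA] at h1
    unfold nv
    push_cast at h1
    linarith
  -- Gs
  have hGs : y Gs * aeval z L0 ^ m = g := by
    have h1 := hy.val Gs m GP (L0 ^ m) ⟨hD.hG, by
        have h2 := hFr.l0.pow m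
        rwa [one_mul] at h2, by
        rw [map_pow]
        exact hFr.eG⟩
    rw [map_pow, hgG] at h1
    exact h1
  have hGsn : y Gs ≠ 0 := by
    intro h0
    rw [h0, zero_mul] at hGs
    exact hC.ne hGs.symm
  have hGsv : v.ord (y Gs) = nv v x m g := by
    have h1 : v.ord (y Gs * aeval z L0 ^ m) = v.ord g := by rw [hGs]
    rw [v.ord_mul' hGsn (pow_ne_zero _ hla), v.ord_pow, hlaP'] at h1
    unfold nv
    linarith
  -- the Jacobian determinant
  have hjac := jac_mul hNRJ hS hD hFr hL0X hL.hp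
  have hXi : ∀ f : MvPolynomial σ k, Itg k u (aeval X f) := by
    intro f
    rw [← val_bX hS.Xint f]
    exact (aeval (bX hS.Xint) f : Bb k u).2
  obtain ⟨W, hW⟩ : ∃ W : Bb k u, (W : F) = aeval u J ^ 3 *
      dt (fun l => dd l (aeval X L0)) (fun l => dd l (aeval X L1)) (fun l => dd l G) := by
    have h1 := dt_map ((Bb k u).val : Bb k u →+* F)
      (fun l => ⟨_, hS.Jd (aeval X L0) l (hXi L0)⟩)
      (fun l => ⟨_, hS.Jd (aeval X L1) l (hXi L1)⟩)
      (fun l => ⟨_, hS.Jd G l hD.crd.itg⟩)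
    exact ⟨_, h1.trans (dt_mul _ _ _ _)⟩
  have hXh : ∀ i, Hm k (eu u dd) 1 (X i) := by
    intro i
    show eu u dd (X i) = ((1 : ℤ) : F) * X i
    rw [hS.Xeu i]
    push_cast
    ring
  have hm1 : 1 ≤ m := le_trans (by norm_num) hD.two
  have hWh : Hm k (eu u dd) ((3 * j0 + (m - 1) : ℕ) : ℤ) (W : F) := by
    have hd := hHDD k F u dd hS.ddu hS.comm
    have hJh : Hm k (eu u dd) j0 (aeval u J) := by
      rw [← hUX J]
      exact Pool.Agent.H62.HIL.hm_aeval hXh (hUh hS.Jh)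
    have h0 : ∀ l, Hm k (eu u dd) (((1 : ℕ) : ℤ) - 1) (dd l (aeval X L0)) := fun l =>
      hd _ _ l (Pool.Agent.H62.HIL.hm_aeval hXh hFr.l0)
    have h1 : ∀ l, Hm k (eu u dd) (((1 : ℕ) : ℤ) - 1) (dd l (aeval X L1)) := fun l =>
      hd _ _ l (Pool.Agent.H62.HIL.hm_aeval hXh hFr.l1)
    have h2 : ∀ l, Hm k (eu u dd) ((m : ℤ) - 1) (dd l G) := fun l => hd _ _ l hD.crd.hom
    have h3 := Pool.Agent.H62.HIL.hm_mul (Pool.Agent.H62.HIL.hm_pow hJh 3) (hm_dt h0 h1 h2)
    rw [hW]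
    have e : ((3 : ℕ) : ℤ) * j0 + (((1 : ℕ) : ℤ) - 1 + (((1 : ℕ) : ℤ) - 1 + ((m : ℤ) - 1))) =
        ((3 * j0 + (m - 1) : ℕ) : ℤ) := by
      push_cast [Nat.cast_sub hm1]
      ring
    rwa [e] at h3
  have hWv := (hCNY k F σ K htr X u dd J j0 hS φ x hC.cx hC.one v).1 _ W hWh
  obtain ⟨d, a, b', hR, hb'⟩ := (dt p (fun i => dX (p i)) (fun i => dG (p i)) : Os X s).2
  obtain ⟨hbz, -⟩ := nv_zero (x := x) hc hcP hzs hR.2.1 hb'
  have hjy := hy.val _ d a b' hR
  have hBb : W * aeval (bX hS.Xint) a = (aeval (bX hS.Xint) (aeval U J : MvPolynomial σ k)) ^ 3 *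
      aeval (bX hS.Xint) L0 ^ (m - 1) * aeval (bX hS.Xint) b' := by
    apply Subtype.ext
    have h1 : ((W * aeval (bX hS.Xint) a : Bb k u) : F) = (W : F) * aeval X a := by
      rw [← val_bX hS.Xint a]
      rfl
    have h2 : (((aeval (bX hS.Xint) (aeval U J : MvPolynomial σ k)) ^ 3 *
        aeval (bX hS.Xint) L0 ^ (m - 1) * aeval (bX hS.Xint) b' : Bb k u) : F) =
        aeval X (aeval U J : MvPolynomial σ k) ^ 3 * aeval X L0 ^ (m - 1) * aeval X b' := by
      rw [← val_bX hS.Xint (aeval U J), ← val_bX hS.Xint L0, ← val_bX hS.Xint b']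
      rfl
    rw [h1, h2, hUX, hW, ← hR.2.2, ← hjac]
    ring
  have hK : φ W * aeval z a = aeval x J ^ 3 * aeval z L0 ^ (m - 1) * aeval z b' := by
    have h1 := congrArg φ hBb
    rw [map_mul, map_mul, map_mul, map_pow, map_pow, phi_bX hS.Xint φ z hzb,
      phi_bX hS.Xint φ z hzb, phi_bX hS.Xint φ z hzb, phi_bX hS.Xint φ z hzb, hUz] at h1
    exact h1
  have hK2 : φ W * y (dt p (fun i => dX (p i)) (fun i => dG (p i))) =
      aeval x J ^ 3 * aeval z L0 ^ (m - 1) := by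
    apply mul_right_cancel₀ hbz
    rw [← hK, ← hjy]
    ring
  have hprod : aeval x J ^ 3 * aeval z L0 ^ (m - 1) ≠ 0 :=
    mul_ne_zero (pow_ne_zero _ hC.Jx) (pow_ne_zero _ hla)
  have hWn : φ W ≠ 0 := by
    intro h0
    rw [h0, zero_mul] at hK2
    exact hprod hK2.symm
  have hjn : y (dt p (fun i => dX (p i)) (fun i => dG (p i))) ≠ 0 := by
    intro h0
    rw [h0, mul_zero] at hK2
    exact hprod hK2.symm
  have hjv : v.ord (y (dt p (fun i => dX (p i)) (fun i => dG (p i)))) ≤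
      3 * nv v x j0 (aeval x J) := by
    have h1 : v.ord (φ W * y (dt p (fun i => dX (p i)) (fun i => dG (p i)))) =
      v.ord (aeval x J ^ 3 * aeval z L0 ^ (m - 1)) := by rw [hK2]
    rw [v.ord_mul' hWn hjn, v.ord_mul' (pow_ne_zero _ hC.Jx) (pow_ne_zero _ hla), v.ord_pow,
      v.ord_pow, hlaP'] at h1
    have h2 := hWv.resolve_left hWn
    unfold nv
    push_cast at h1 h2
    nlinarith
  have hAl : y (Aloc dX dG p A1) = y A1 * y (dt p (fun i => dX (p i)) (fun i => dG (p i))) := by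
    unfold Aloc
    rw [map_mul]
  refine ⟨?_, ?_, hGsn, hGsv⟩
  · rw [hAl]
    exact mul_ne_zero hA1n hjn
  · rw [hAl, v.ord_mul' hA1n hjn, hA1v]
    linarith

end

theorem pf_JBD (hNRJ : T_NRJ) (hHDD : T_HDD) (hCNY : T_CNY) : T_JBD := by
  intro k F σ K _ _ _ _ _ _ _ _ _ _ htr X u dd J j0 m G GP hS hD s hcone L0 L1 cX cG ε x1 Gs
    dX dG hFr α A b hb p A1 b1 hL φ x g S hC hA v c hc hcP hcs z hz y hy
  exact jbd hNRJ hHDD hCNY htr hS hD hcone hFr hb hL hC hA hc hcP hcs hz hy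

end Pool.Agent.H86.SF
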