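import Pool.Agent.H58.SF.Targets

/-! KK: complete graphs. -/

set_option autoImplicit false
set_option linter.unusedSimpArgs false

namespace Pool.Agent.H58.SF

open Pool.Agent.H68.BP

theorem pf_KK : T_KK := by
  intro k T R hk hno
  rintro ⟨o, ho, hid⟩
  apply hno
  obtain ⟨n, rfl⟩ : ∃ n, k = n + 3 := ⟨k - 3, by omega⟩
  -- adjacency
  have hadj : ∀ a b : Fin 6 → Fin (n + 3), (∀ i, a i ≠ b i) → R (o a) (o b) := by
    intro a b hab
    exact ho (0 : Fin 1) (fun i => (![a i, b i] : Fin 2 → Fin (n + 3))) (fun i => hab i)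
  have h1 : ∀ x : Fin (n + 3), x ≠ x + 1 := by
    intro x h
    have : (1 : Fin (n + 3)) = 0 := left_eq_add.1 h
    rw [Fin.ext_iff] at this
    simp at this
  have h2 : ∀ x : Fin (n + 3), x ≠ x + 2 := by
    intro x h
    have : (2 : Fin (n + 3)) = 0 := left_eq_add.1 h
    rw [Fin.ext_iff] at this
    simp only [Fin.coe_ofNat_eq_mod, Nat.zero_mod] at this
    rw [Nat.mod_eq_of_lt (by omega)] at this
    omega
  have h12 : ∀ x : Fin (n + 3), x + 1 + 1 = x + 2 := by
    intro x
    rw [add_assoc]
    congr 1
  obtain ⟨u, hu⟩ : ∃ u : Fin (n + 3) → Fin 6 → Fin (n + 3),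
      ∀ x, u x = ![x, x + 1, x + 2, x + 1, x + 2, x] := ⟨_, fun _ => rfl⟩
  obtain ⟨v, hv⟩ : ∃ v : Fin (n + 3) → Fin 6 → Fin (n + 3),
      ∀ z, v z = ![z, z, z + 1, z + 1, z + 1, z] := ⟨_, fun _ => rfl⟩
  have huu : ∀ x y, x ≠ y → R (o (u x)) (o (u y)) := by
    intro x y hxy
    refine hadj _ _ fun i => ?_
    rw [hu, hu]
    fin_cases i <;> simp [hxy]
  have hvv : ∀ x y, x ≠ y → R (o (v x)) (o (v y)) := by
    intro x y hxy
    refine hadj _ _ fun i => ?_
    rw [hv, hv]
    fin_cases i <;> simp [hxy]
  have huv : ∀ x z, R (o (u x)) (o (v z)) ∧ R (o (v z)) (o (u x)) := by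
    intro x z
    by_cases c1 : z = x
    · subst c1
      have e1 : o (v z) = o ![z + 1, z, z, z, z + 1, z + 1] := by
        rw [hv]
        exact (hid z (z + 1)).1.trans (hid z (z + 1)).2
      rw [e1, hu]
      have h3 : z + 1 ≠ z + 2 := by
        rw [← h12]
        exact h1 _
      constructor
      · refine hadj _ _ fun i => ?_
        fin_cases i <;> simp [h1 z, h2 z, h3, (h1 z).symm, (h2 z).symm, h3.symm]
      · refine hadj _ _ fun i => ?_
        fin_cases i <;> simp [h1 z, h2 z, h3, (h1 z).symm, (h2 z).symm, h3.symm]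
    · by_cases c2 : z = x + 1
      · subst c2
        have e1 : o (v (x + 1)) = o ![x + 1, x + 2, x + 1, x + 2, x + 1, x + 2] := by
          rw [hv, h12]
          exact (hid (x + 1) (x + 2)).1
        rw [e1, hu]
        have h3 : x + 1 ≠ x + 2 := by
          rw [← h12]
          exact h1 _
        constructor
        · refine hadj _ _ fun i => ?_
          fin_cases i <;> simp [h1 x, h2 x, h3, (h1 x).symm, (h2 x).symm, h3.symm]
        · refine hadj _ _ fun i => ?_
          fin_cases i <;> simp [h1 x, h2 x, h3, (h1 x).symm, (h2 x).symm, h3.symm]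
      · have c1' : x ≠ z := fun h => c1 h.symm
        have c2' : x + 1 ≠ z := fun h => c2 h.symm
        have c3 : x + 2 ≠ z + 1 := by
          rw [← h12]
          intro h
          exact c2' (add_right_cancel h)
        rw [hu, hv]
        constructor
        · refine hadj _ _ fun i => ?_
          fin_cases i <;> simp [c1', c2', c3]
        · refine hadj _ _ fun i => ?_
          fin_cases i <;> simp [c1, c2, c3.symm]
  -- the clique
  refine ⟨fun i => if h : i.val < n + 3 then o (u ⟨i.val, h⟩) else
    o (v ⟨i.val - (n + 3), by omega⟩), fun i j hij => ?_⟩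
  have hij' : i.val ≠ j.val := fun h => hij (Fin.ext h)
  by_cases hi : i.val < n + 3
  · by_cases hj : j.val < n + 3
    · simp only [hi, hj, dite_true]
      refine huu _ _ fun h => hij' ?_
      rw [Fin.ext_iff] at h
      exact h
    · simp only [hi, hj, dite_true, dite_false]
      exact (huv _ _).1
  · by_cases hj : j.val < n + 3
    · simp only [hi, hj, dite_true, dite_false]
      exact (huv _ _).2
    · simp only [hi, hj, dite_false]
      refine hvv _ _ fun h => hij' ?_
      rw [Fin.ext_iff] at h
      simp only at h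
      omega

end Pool.Agent.H58.SF
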