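import Pool.Agent.H84.SF.Geo2
import Pool.Agent.H27.LV.Curve

/-!
# Centres of places: values of forms (lemmas for the rows LOC and JBD of sfc_modules)
-/

set_option autoImplicit false

namespace Pool.Agent.H86.SF

open MvPolynomial SC
open Pool.Agent.H27.LV
open Pool.Agent.H3.SF (Itg Bb BB Hm eu grd hes Sfc Crd Cnn Crf Prm nv)
open Pool.Agent.H84.SF

section

variable {k K σ : Type} [Field k] [Field K] [Algebra k K]

/-- the value of a form at a multiple -/
theorem aeval_hs {f : MvPolynomial σ k} {e : ℕ} (hf : f.IsHomogeneous e) (c : K) (z : σ → K) :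
    aeval (fun i => c * z i) f = c ^ e * aeval z f := by
  rw [aeval_def, aeval_def, eval₂_eq, eval₂_eq, Finset.mul_sum]
  refine Finset.sum_congr rfl fun d hd => ?_
  have hdeg : ∑ i ∈ d.support, d i = e := by
    by_contra h
    exact (mem_support_iff.1 hd) (hf.coeff_eq_zero h)
  have h1 : ∏ i ∈ d.support, (c * z i) ^ d i = c ^ e * ∏ i ∈ d.support, z i ^ d i := by
    rw [← hdeg, ← Finset.prod_pow_eq_pow_sum, ← Finset.prod_mul_distrib]
    exact Finset.prod_congr rfl fun i _ => mul_pow _ _ _
  rw [h1]
  ring

/-- the value of a form at a multiple, constants -/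
theorem eval_hs {f : MvPolynomial σ k} {e : ℕ} (hf : f.IsHomogeneous e) (c : k) (s : σ → k) :
    eval (c • s) f = c ^ e * eval s f := by
  have h := aeval_hs (K := k) hf c s
  rw [← coe_aeval_eq_eval, ← coe_aeval_eq_eval]
  exact h

variable {v : DV k K}

theorem ge_aeval {y : σ → K} (hy : ∀ i, ge v 0 (y i)) (f : MvPolynomial σ k) :
    ge v 0 (aeval y f) := by
  induction f using MvPolynomial.induction_on with
  | C c =>
      rw [algHom_C]
      exact ge_const v c
  | add p q hp hq =>
      rw [map_add]
      exact hp.add hq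
  | mul_X p i hp =>
      rw [map_mul, aeval_X]
      have h := hp.mul (hy i)
      rwa [add_zero] at h

/-- values modulo the maximal ideal -/
theorem ge_aeval_sub {y : σ → K} {s : σ → k} (hy : ∀ i, ge v 1 (y i - algebraMap k K (s i)))
    (f : MvPolynomial σ k) : ge v 1 (aeval y f - algebraMap k K (eval s f)) := by
  have hy0 : ∀ i, ge v 0 (y i) := by
    intro i
    have h1 := ((hy i).mono (by norm_num : (0 : ℤ) ≤ 1)).add (ge_const v (s i))
    rwa [sub_add_cancel] at h1
  induction f using MvPolynomial.induction_on with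
  | C c =>
      rw [algHom_C, eval_C, sub_self]
      exact ge_zero v 1
  | add p q hp hq =>
      rw [map_add, map_add, map_add]
      have h := hp.add hq
      have e : aeval y p - algebraMap k K (eval s p) + (aeval y q - algebraMap k K (eval s q)) =
        aeval y p + aeval y q - (algebraMap k K (eval s p) + algebraMap k K (eval s q)) := by ring
      rwa [e] at h
  | mul_X p i hp =>
      rw [map_mul, aeval_X, map_mul, eval_X, map_mul]
      have h1 := hp.mul (hy0 i)
      have h2 := (ge_const v (eval s p)).mul (hy i)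
      rw [add_zero] at h1
      rw [zero_add] at h2
      have h := h1.add h2
      have e : (aeval y p - algebraMap k K (eval s p)) * y i +
          algebraMap k K (eval s p) * (y i - algebraMap k K (s i)) =
          aeval y p * y i - algebraMap k K (eval s p) * algebraMap k K (s i) := by ring
      rwa [e] at h

/-- an element which is congruent to a nonzero constant is a unit -/
theorem ord_of_cong {a : K} {r : k} (h : ge v 1 (a - algebraMap k K r)) (hr : r ≠ 0) :
    a ≠ 0 ∧ v.ord a = 0 := by
  have hr' : algebraMap k K r ≠ 0 := by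
    intro h0
    exact hr ((map_eq_zero _).1 h0)
  have ha : a ≠ 0 := by
    rintro rfl
    rw [zero_sub] at h
    have h1 := h.neg
    rw [neg_neg] at h1
    exact hr (const_eq_zero v one_pos h1)
  refine ⟨ha, ?_⟩
  have e : a = algebraMap k K r + (a - algebraMap k K r) := by ring
  have h3 : a - algebraMap k K r ≠ 0 → v.ord (algebraMap k K r) < v.ord (a - algebraMap k K r) := by
    intro h2
    rw [v.ord_base]
    rcases h with h | h
    · exact absurd h h2
    · omega
  rw [e, (v.ord_add_eq_left hr' h3).2, v.ord_base]

/-- the order of a multiple -/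
theorem ord_nv {x : Fin 3 → K} {c a : K} (hc : c ≠ 0) (hcP : v.ord c = poleOrder v x) (ha : a ≠ 0)
    (e : ℕ) : v.ord (c ^ e * a) = nv v x e a := by
  unfold nv
  rw [v.ord_mul' (pow_ne_zero _ hc) ha, v.ord_pow, hcP]
  ring

end

section

variable {k F σ K : Type} [Field k] [Field F] [Algebra k F] [Field K] [Algebra k K]

theorem hom_aeval {A B : Type} [CommRing A] [Algebra k A] [CommRing B] [Algebra k B]
    (f : A →ₐ[k] B) (y : σ → A) (p : MvPolynomial σ k) :
    f (aeval y p) = aeval (fun i => f (y i)) p := by
  have h : f.comp (aeval y) = aeval (fun i => f (y i)) := by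
    refine MvPolynomial.algHom_ext fun i => ?_
    rw [AlgHom.comp_apply, aeval_X, aeval_X]
  rw [← h]
  rfl

/-- the coordinates as integral elements -/
noncomputable def bX {X : σ → F} {u : Fin 3 → F} (h : ∀ i, Itg k u (X i)) : σ → Bb k u :=
  fun i => ⟨X i, h i⟩

theorem val_bX {X : σ → F} {u : Fin 3 → F} (h : ∀ i, Itg k u (X i)) (f : MvPolynomial σ k) :
    ((aeval (bX h) f : Bb k u) : F) = aeval X f :=
  hom_aeval (Bb k u).val (bX h) f

theorem phi_bX {X : σ → F} {u : Fin 3 → F} (h : ∀ i, Itg k u (X i)) (φ : Bb k u →ₐ[k] K)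
    (z : σ → K) (hz : ∀ i, φ (bX h i) = z i) (f : MvPolynomial σ k) :
    φ (aeval (bX h) f) = aeval z f := by
  have e : z = fun i => φ (bX h i) := funext fun i => (hz i).symm
  rw [e]
  exact hom_aeval φ (bX h) f

/-- points of the cone: multiples -/
theorem cone_smul {X : σ → F} {t : σ → k} {μ : k} (hμ : μ ≠ 0) (h : Cone X (μ • t)) :
    Cone X t := by
  refine ⟨h.hom, fun f hf => ?_⟩
  have h1 : ∀ d, eval t (homogeneousComponent d f) = 0 := by
    intro d
    have h2 := h.pt _ (h.hom f d hf)
    rw [eval_hs (homogeneousComponent_isHomogeneous d f)] at h2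
    exact (mul_eq_zero.1 h2).resolve_left (pow_ne_zero _ hμ)
  rw [← sum_homogeneousComponent f, map_sum]
  exact Finset.sum_eq_zero fun d _ => h1 d

end

/-- the sum of the normalised orders -/
theorem sum_nv {k K : Type} [Field k] [IsAlgClosed k] [CharZero k] [Field K] [Algebra k K]
    [Algebra.EssFiniteType k K] (htr : Algebra.trdeg k K = 1) (x : Fin 3 → K) (e : ℤ) (a : K) :
    (Function.support fun v : DV k K => nv v x e a).Finite ∧
      ∑ᶠ v : DV k K, nv v x e a = e * deg k x := by
  have h1 : (Function.support fun v : DV k K => v.ord a).Finite := (pfm k K htr a).1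
  have h2 : (Function.support fun v : DV k K => (poleOrder v x : ℤ)).Finite := by
    refine (pfi k K htr (Fin 3) x).subset fun v hv => ?_
    intro h0
    apply hv
    show (poleOrder v x : ℤ) = 0
    exact_mod_cast h0
  have h2' : (Function.support fun v : DV k K => e * (poleOrder v x : ℤ)).Finite := by
    refine h2.subset fun v hv => ?_
    intro h0
    apply hv
    show e * (poleOrder v x : ℤ) = 0
    have h3 : (poleOrder v x : ℤ) = 0 := h0
    rw [h3, mul_zero]
  constructor
  · refine (h1.union h2').subset fun v hv => ?_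
    by_contra h0
    rw [Set.mem_union, not_or] at h0
    apply hv
    show v.ord a + e * (poleOrder v x : ℤ) = 0
    have h3 : v.ord a = 0 := by
      by_contra h4
      exact h0.1 h4
    have h4 : e * (poleOrder v x : ℤ) = 0 := by
      by_contra h5
      exact h0.2 h5
    rw [h3, h4, add_zero]
  · have e1 : (∑ᶠ v : DV k K, nv v x e a) =
        (∑ᶠ v : DV k K, v.ord a) + ∑ᶠ v : DV k K, e * (poleOrder v x : ℤ) :=
      finsum_add_distrib h1 h2'
    rw [e1, (pfm k K htr a).2, zero_add, ← mul_finsum]
    congr 1
    unfold deg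
    have h5 : (Function.support fun v : DV k K => poleOrder v x).Finite := pfi k K htr (Fin 3) x
    exact ((Nat.castAddMonoidHom ℤ).map_finsum h5).symm

end Pool.Agent.H86.SF
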