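import Pool.Agent.H84.SF.Fin
import Pool.Agent.H86.SF.Cent

/-!
# Pole orders of the plane image (row POZ of sfc_modules)
-/

set_option autoImplicit false

namespace Pool.Agent.H86.SF

open MvPolynomial SC
open Pool.Agent.H27.LV (ge deg poleOrder ge_const ge_zero ge_one ge_sum npole_le)
open Pool.Agent.H3.SF (Itg Bb BB Hm eu grd hes Sfc Crd Crf Prm)
open Pool.Agent.H84.SF

section

variable {k K : Type} [Field k] [Field K] [Algebra k K] (v : DV k K)

theorem pole_spec {τ : Type} [Fintype τ] (z : τ → K) (j : τ) (hj : z j = 1) :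
    (∀ s, ge v (-(poleOrder v z : ℤ)) (z s)) ∧
      ∃ s, z s ≠ 0 ∧ v.ord (z s) = -(poleOrder v z : ℤ) := by
  refine ⟨fun s => Or.inr (npole_le v z s), ?_⟩
  obtain ⟨i, -, hi⟩ := Finset.exists_mem_eq_sup Finset.univ ⟨j, Finset.mem_univ j⟩
    (fun i => (-(v.ord (z i))).toNat)
  have hi' : poleOrder v z = (-(v.ord (z i))).toNat := hi
  by_cases h : v.ord (z i) < 0
  · refine ⟨i, ?_, by omega⟩
    intro h0
    rw [h0, v.ord_zero] at h
    exact lt_irrefl _ h
  · refine ⟨j, by rw [hj]; exact one_ne_zero, ?_⟩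
    rw [hj, v.ord_one]
    omega

theorem ge_pow' {t : ℤ} {a : K} (h : ge v t a) (n : ℕ) : ge v (n * t) (a ^ n) := by
  induction n with
  | zero =>
      rw [pow_zero, Nat.cast_zero, zero_mul]
      exact ge_one v
  | succ n ih =>
      have h1 := ih.mul h
      rw [pow_succ]
      have e : (n : ℤ) * t + t = ((n + 1 : ℕ) : ℤ) * t := by push_cast; ring
      rwa [e] at h1

theorem ge_prod' {ι : Type} (s : Finset ι) {f : ι → K} {t : ι → ℤ} (h : ∀ i ∈ s, ge v (t i) (f i)) :
    ge v (∑ i ∈ s, t i) (∏ i ∈ s, f i) := by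
  classical
  induction s using Finset.induction_on with
  | empty =>
      rw [Finset.sum_empty, Finset.prod_empty]
      exact ge_one v
  | insert a s ha ih =>
      rw [Finset.sum_insert ha, Finset.prod_insert ha]
      exact (h a (Finset.mem_insert_self a s)).mul
        (ih fun i hi => h i (Finset.mem_insert_of_mem hi))

/-- forms in elements of order at least `μ` -/
theorem ge_form {τ : Type} {w : τ → K} {μ : ℤ} (hw : ∀ l, ge v μ (w l))
    {f : MvPolynomial τ k} {e : ℕ} (hf : f.IsHomogeneous e) : ge v (e * μ) (aeval w f) := by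
  rw [aeval_def, eval₂_eq]
  refine ge_sum v _ _ _ fun d hd => ?_
  have hdeg : ∑ i ∈ d.support, d i = e := by
    by_contra h
    exact (mem_support_iff.1 hd) (hf.coeff_eq_zero h)
  have h1 := (ge_const v (coeff d f)).mul
    (ge_prod' v d.support (f := fun i => w i ^ d i) (t := fun i => (d i : ℤ) * μ)
      fun i _ => ge_pow' v (hw i) (d i))
  rw [zero_add, ← Finset.sum_mul, ← Nat.cast_sum, hdeg] at h1
  exact h1

/-- orders of the roots of a homogeneous integral equation -/
theorem ge_root {w : Fin 3 → K} {μ : ℤ} (hw : ∀ l, ge v μ (w l)) {N : ℕ}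
    {c : Fin N → MvPolynomial (Fin 3) k} (hc : ∀ i, (c i).IsHomogeneous ((N - (i : ℕ)) * 1))
    {a : K} (h : a ^ N + ∑ i, aeval w (c i) * a ^ (i : ℕ) = 0) : ge v μ a := by
  by_cases ha : a = 0
  · exact Or.inl ha
  right
  by_contra hlt
  push Not at hlt
  have h1 : ge v (N * v.ord a + 1) (∑ i, aeval w (c i) * a ^ (i : ℕ)) := by
    refine ge_sum v _ _ _ fun i _ => ?_
    have h2 := (ge_form v hw (hc i)).mul (ge_pow' v (Or.inr le_rfl : ge v (v.ord a) a) (i : ℕ))
    refine h2.mono ?_
    have hi : (i : ℕ) < N := i.2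
    have h3 : (((N - (i : ℕ)) * 1 : ℕ) : ℤ) = (N : ℤ) - (i : ℕ) := by
      push_cast [Nat.cast_sub hi.le]
      ring
    rw [h3]
    have h4 : (1 : ℤ) ≤ (N : ℤ) - (i : ℕ) := by omega
    nlinarith
  have h2 : a ^ N = -∑ i, aeval w (c i) * a ^ (i : ℕ) := by
    linear_combination h
  rw [← neg_eq_iff_eq_neg] at h2
  have h3 : ge v (N * v.ord a + 1) (a ^ N) := by
    have h4 := h1.neg
    rw [← h2, neg_neg] at h4
    exact h4
  rcases h3 with h3 | h3
  · exact pow_ne_zero _ ha h3
  · rw [v.ord_pow] at h3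
    omega

end

theorem pf_POZ (hHIE : T_HIE) : T_POZ := by
  intro k F σ K _ _ _ _ _ _ _ X u dd c hdu hXi hXe hlin z hker hone
  obtain ⟨j, hj⟩ := hone
  have hrel : ∀ s : σ, ∃ (N : ℕ) (C : Fin N → MvPolynomial (Fin 3) k),
      (∀ i, (C i).IsHomogeneous ((N - (i : ℕ)) * 1)) ∧
      z s ^ N + ∑ i, aeval (lin c z) (C i) * z s ^ (i : ℕ) = 0 := by
    intro s
    obtain ⟨N, C, hC, h0⟩ := hHIE k F u dd hdu (X s) 1 (hXi s) (by
      show eu u dd (X s) = ((((1 : ℕ) : ℤ) : ℤ) : F) * X s
      rw [hXe s]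
      push_cast
      ring)
    refine ⟨N, C, hC, ?_⟩
    have hU1 : ∀ l, aeval X (lin c (MvPolynomial.X : σ → MvPolynomial σ k) l) = u l := by
      intro l
      unfold lin
      rw [hlin l, map_sum]
      refine Finset.sum_congr rfl fun t _ => ?_
      rw [map_smul, aeval_X]
    have hU2 : ∀ l, aeval z (lin c (MvPolynomial.X : σ → MvPolynomial σ k) l) = lin c z l := by
      intro l
      unfold lin
      rw [map_sum]
      refine Finset.sum_congr rfl fun t _ => ?_
      rw [map_smul, aeval_X]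
    have h1 := hker (MvPolynomial.X s ^ N + ∑ i, aeval
      (lin c (MvPolynomial.X : σ → MvPolynomial σ k)) (C i) * MvPolynomial.X s ^ (i : ℕ)) (by
        rw [map_add, map_pow, aeval_X, map_sum, ← h0]
        congr 1
        refine Finset.sum_congr rfl fun i _ => ?_
        rw [map_mul, map_pow, aeval_X,
          hom_aeval (aeval X : MvPolynomial σ k →ₐ[k] F), funext hU1])
    rw [map_add, map_pow, aeval_X, map_sum] at h1
    rw [← h1]
    congr 1
    refine Finset.sum_congr rfl fun i _ => ?_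
    rw [map_mul, map_pow, aeval_X, hom_aeval (aeval z : MvPolynomial σ k →ₐ[k] K), funext hU2]
  have hex : ∃ l0, lin c z l0 ≠ 0 := by
    by_contra hcon
    push Not at hcon
    obtain ⟨N, C, hC, h0⟩ := hrel j
    have h1 : ∑ i, aeval (lin c z) (C i) * z j ^ (i : ℕ) = 0 := by
      refine Finset.sum_eq_zero fun i _ => ?_
      have h2 : aeval (lin c z) (C i) = 0 := by
        have h3 := aeval_hs (hC i) (0 : K) (lin c z)
        have h4 : (fun l => (0 : K) * lin c z l) = lin c z := by
          funext l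
          rw [hcon l, mul_zero]
        rw [h4, zero_pow (by have := i.2; omega), zero_mul] at h3
        exact h3
      rw [h2, zero_mul]
    rw [h1, hj, one_pow, add_zero] at h0
    exact one_ne_zero h0
  obtain ⟨l0, hl0⟩ := hex
  refine ⟨l0, hl0, fun v => ?_⟩
  obtain ⟨a1, s1, hs1, a2⟩ := pole_spec v z j hj
  obtain ⟨b1, l1, hl1, b2⟩ := pole_spec v (fun l => lin c z l / lin c z l0) l0 (div_self hl0)
  have hl1' : lin c z l1 ≠ 0 := fun h0 => hl1 (by show lin c z l1 / lin c z l0 = 0; rw [h0, zero_div])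
  have hmul : ∀ l, lin c z l / lin c z l0 * lin c z l0 = lin c z l := fun l =>
    div_mul_cancel₀ _ hl0
  have b2' : v.ord (lin c z l1) =
      -(poleOrder v (fun l => lin c z l / lin c z l0) : ℤ) + v.ord (lin c z l0) := by
    rw [← b2, ← v.ord_mul' hl1 hl0]
    show v.ord (lin c z l1) = v.ord (lin c z l1 / lin c z l0 * lin c z l0)
    rw [hmul l1]
  have hge1 : ge v (-(poleOrder v z : ℤ)) (lin c z l1) := by
    unfold lin
    refine ge_sum v _ _ _ fun t _ => ?_
    have h1 := (ge_const v (c l1 t)).mul (a1 t)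
    rw [zero_add] at h1
    rwa [Algebra.smul_def]
  have hge2 : ∀ l, ge v (-(poleOrder v (fun l => lin c z l / lin c z l0) : ℤ) +
      v.ord (lin c z l0)) (lin c z l) := by
    intro l
    have h1 := (b1 l).mul (Or.inr le_rfl : ge v (v.ord (lin c z l0)) (lin c z l0))
    have h2 : (fun l => lin c z l / lin c z l0) l * lin c z l0 = lin c z l := hmul l
    rwa [h2] at h1
  obtain ⟨N, C, hC, h0⟩ := hrel s1
  have h3 := ge_root v hge2 hC h0
  have h4 := h3.resolve_left hs1
  have h5 := hge1.resolve_left hl1'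
  omega

end Pool.Agent.H86.SF
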