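import Pool.Agent.H84.SF.Loc
import Pool.Agent.H25.SM.IND

/-!
# Row INDS of the board sfc_modules: the indicial equation on a surface
-/

set_option autoImplicit false

namespace Pool.Agent.H86.SF

open MvPolynomial SC
open Pool.Agent.H27.LV (ge deg poleOrder canDeg)
open Pool.Agent.H92.OD
open Pool.Agent.H84.SM (y1 y2 Near)
open Pool.Agent.H84.SF
open Pool.Agent.H25.SM (y1_add y2_add cf_y1 cf_y2 geO_y1 geO_y2 cases2)

/-- the difference of the values at two points -/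
theorem dif {k O : Type} [Field k] [CharZero k] [CommRing O] [Algebra k O] (hEXD : T_EXD)
    {ε : O →ₐ[k] k} {X G : O} {dX dG : Derivation k O O} (hF : Frm ε X G dX dG)
    {x1 x2 : O →ₐ[k] HS k} (h1 : Pnt X G x1) (h2 : Pnt X G x2) (ht : geO 0 (x2 G - x1 G))
    (h : O) : ∃ R : HS k, geO 0 R ∧ x2 h - x1 h = (x2 G - x1 G) * R := by
  obtain ⟨R, hR, e⟩ := hEXD k O ε X G dX dG hF x1 x2 h1 h2 h
  refine ⟨x1 (dG h) + (x2 G - x1 G) * R, ?_, ?_⟩
  · have g := geO_mul ht hR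
    rw [zero_add] at g
    exact geO_add (h1.int _) g
  · rw [e]
    ring

/-- the algebra of the main congruence -/
theorem algS {R : Type} [CommRing R] (A1 A2 cA t d2 d1 u2 p q B0 B0' B1 B1' B2 B2' B3 B3' al be
    U V SA S1 S2 S3 R0 RA R1 R2 D0 : R) (hd1 : d1 = q - p) (eA : A2 = A1 + t * SA)
    (e0 : B0' = B0 + t * D0 + t ^ 2 * R0) (e1 : B1' = B1 + t * S1) (e2 : B2' = B2 + t * S2)
    (e3 : B3' = B3 + t * S3) (ecA : cA = A2 - V * RA) (ebe : be = B1 - U * R1)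
    (eal : al = D0 - U * R2) (s1 : A1 * u2 + (B0 + B1 * p + B2 * p ^ 2 + B3 * p ^ 3) = 0)
    (s2 : A2 * (d2 + u2) + (B0' + B1' * q + B2' * q ^ 2 + B3' * q ^ 3) = 0) :
    cA * d2 + t * al + d1 * be = -((V * RA) * d2 + t * SA * u2 +
        (t * (U * R2) + t * (t * R0)) + t * S1 * q + d1 * (U * R1) +
        (t * (S2 * (q * q)) + B2 * (d1 * (q + p))) +
        (t * (S3 * (q * (q * q))) + B3 * (d1 * (q * q + q * p + p * p)))) := by
  subst hd1 ecA ebe eal e0 e1 e2 e3 eA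
  linear_combination s2 - s1

/-- the main congruence -/
theorem mainS {k O : Type} [Field k] [CharZero k] [CommRing O] [Algebra k O] (hEXD : T_EXD)
    {ε : O →ₐ[k] k} {X G : O} {dX dG : Derivation k O O} (hF : Frm ε X G dX dG) (A : O)
    (b : Fin 4 → O) (c x1 x2 : O →ₐ[k] HS k) (hc : Pnt X G c) (hcG : c G = 0)
    (h1 : Pnt X G x1) (h2 : Pnt X G x2) (r : ℚ) (hr1 : 1 ≤ r) (hU : geO r (x1 G))
    (hV : geO r (x2 G)) (s1 : SolO A b G x1) (s2 : SolO A b G x2) (ν : ℚ)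
    (hν : geO ν (x2 G - x1 G)) :
    geO (ν + r - 2) (c A * y2 (x2 G - x1 G) + (x2 G - x1 G) * c (dG (b 0)) +
      y1 (x2 G - x1 G) * c (b 1)) := by
  have htr : geO r (x2 G - x1 G) := by
    rw [sub_eq_add_neg]
    exact geO_add hV (geO_neg hU)
  have ht0 : geO 0 (x2 G - x1 G) := geO_mono htr (by linarith)
  have hU0 : geO 0 (x1 G) := geO_mono hU (by linarith)
  have hV0 : geO 0 (x2 G) := geO_mono hV (by linarith)
  obtain ⟨SA, hSA, eSA⟩ := dif hEXD hF h1 h2 ht0 A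
  obtain ⟨S1, hS1, eS1⟩ := dif hEXD hF h1 h2 ht0 (b 1)
  obtain ⟨S2, hS2, eS2⟩ := dif hEXD hF h1 h2 ht0 (b 2)
  obtain ⟨S3, hS3, eS3⟩ := dif hEXD hF h1 h2 ht0 (b 3)
  obtain ⟨R0, hR0, eR0⟩ := hEXD k O ε X G dX dG hF x1 x2 h1 h2 (b 0)
  have hcV : geO 0 (x2 G - c G) := by rw [hcG, sub_zero]; exact hV0
  have hcU : geO 0 (x1 G - c G) := by rw [hcG, sub_zero]; exact hU0
  obtain ⟨RA, hRA, eRA⟩ := dif hEXD hF hc h2 hcV A
  obtain ⟨R1, hR1, eR1⟩ := dif hEXD hF hc h1 hcU (b 1)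
  obtain ⟨R2, hR2, eR2⟩ := dif hEXD hF hc h1 hcU (dG (b 0))
  rw [hcG, sub_zero] at eRA eR1 eR2
  have e2 : y2 (x2 G) = y2 (x2 G - x1 G) + y2 (x1 G) := by rw [← y2_add, sub_add_cancel]
  have e1 : y1 (x2 G) = y1 (x2 G - x1 G) + y1 (x1 G) := by rw [← y1_add, sub_add_cancel]
  unfold SolO at s1 s2
  rw [Fin.sum_univ_four] at s1 s2
  simp only [Fin.val_zero, Fin.val_one, Fin.val_two, pow_zero, pow_one, mul_one] at s1 s2
  have v3 : ((3 : Fin 4) : ℕ) = 3 := rfl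
  rw [v3] at s1 s2
  have key : c A * y2 (x2 G - x1 G) + (x2 G - x1 G) * c (dG (b 0)) +
      y1 (x2 G - x1 G) * c (b 1) =
      -((x2 G * RA) * y2 (x2 G - x1 G) + (x2 G - x1 G) * SA * y2 (x1 G) +
        ((x2 G - x1 G) * (x1 G * R2) + (x2 G - x1 G) * ((x2 G - x1 G) * R0)) +
        (x2 G - x1 G) * S1 * y1 (x2 G) + y1 (x2 G - x1 G) * (x1 G * R1) +
        ((x2 G - x1 G) * (S2 * (y1 (x2 G) * y1 (x2 G))) +
          x1 (b 2) * (y1 (x2 G - x1 G) * (y1 (x2 G) + y1 (x1 G)))) +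
        ((x2 G - x1 G) * (S3 * (y1 (x2 G) * (y1 (x2 G) * y1 (x2 G)))) +
          x1 (b 3) * (y1 (x2 G - x1 G) * (y1 (x2 G) * y1 (x2 G) + y1 (x2 G) * y1 (x1 G) +
            y1 (x1 G) * y1 (x1 G))))) := by
    rw [e2] at s2
    have f1 : y1 (x2 G - x1 G) = y1 (x2 G) - y1 (x1 G) := by rw [e1]; ring
    exact algS (x1 A) (x2 A) (c A) (x2 G - x1 G) _ _ _ _ _ (x1 (b 0)) (x2 (b 0)) (x1 (b 1))
      (x2 (b 1)) (x1 (b 2)) (x2 (b 2)) (x1 (b 3)) (x2 (b 3)) (c (dG (b 0))) (c (b 1)) (x1 G)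
      (x2 G) SA S1 S2 S3 R0 RA R1 R2 (x1 (dG (b 0))) f1 (by linear_combination eSA) eR0
      (by linear_combination eS1) (by linear_combination eS2) (by linear_combination eS3)
      (by linear_combination -eRA) (by linear_combination -eR1) (by linear_combination -eR2)
      s1 s2
  rw [key]
  have hd1 : geO (ν - 1) (y1 (x2 G - x1 G)) := geO_y1 hν
  have hd2 : geO (ν - 2) (y2 (x2 G - x1 G)) := geO_y2 hν
  have hy1U : geO (r - 1) (y1 (x1 G)) := geO_y1 hU
  have hy1V : geO (r - 1) (y1 (x2 G)) := geO_y1 hV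
  have hy2U : geO (r - 2) (y2 (x1 G)) := geO_y2 hU
  have k1 : geO (ν + r - 2) ((x2 G * RA) * y2 (x2 G - x1 G)) :=
    geO_mono (geO_mul (geO_mul hV hRA) hd2) (by linarith)
  have k2 : geO (ν + r - 2) ((x2 G - x1 G) * SA * y2 (x1 G)) :=
    geO_mono (geO_mul (geO_mul hν hSA) hy2U) (by linarith)
  have k3 : geO (ν + r - 2) ((x2 G - x1 G) * (x1 G * R2) + (x2 G - x1 G) * ((x2 G - x1 G) * R0)) :=
    geO_add (geO_mono (geO_mul hν (geO_mul hU hR2)) (by linarith))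
      (geO_mono (geO_mul hν (geO_mul htr hR0)) (by linarith))
  have k4 : geO (ν + r - 2) ((x2 G - x1 G) * S1 * y1 (x2 G)) :=
    geO_mono (geO_mul (geO_mul hν hS1) hy1V) (by linarith)
  have k5 : geO (ν + r - 2) (y1 (x2 G - x1 G) * (x1 G * R1)) :=
    geO_mono (geO_mul hd1 (geO_mul hU hR1)) (by linarith)
  have k6 : geO (ν + r - 2) ((x2 G - x1 G) * (S2 * (y1 (x2 G) * y1 (x2 G))) +
      x1 (b 2) * (y1 (x2 G - x1 G) * (y1 (x2 G) + y1 (x1 G)))) :=
    geO_add (geO_mono (geO_mul hν (geO_mul hS2 (geO_mul hy1V hy1V))) (by linarith))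
      (geO_mono (geO_mul (h1.int _) (geO_mul hd1 (geO_add hy1V hy1U))) (by linarith))
  have k7 : geO (ν + r - 2) ((x2 G - x1 G) * (S3 * (y1 (x2 G) * (y1 (x2 G) * y1 (x2 G)))) +
      x1 (b 3) * (y1 (x2 G - x1 G) * (y1 (x2 G) * y1 (x2 G) + y1 (x2 G) * y1 (x1 G) +
        y1 (x1 G) * y1 (x1 G)))) :=
    geO_add (geO_mono (geO_mul hν (geO_mul hS3 (geO_mul hy1V (geO_mul hy1V hy1V)))) (by linarith))
      (geO_mono (geO_mul (h1.int _) (geO_mul hd1 (geO_add (geO_add (geO_mul hy1V hy1V)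
        (geO_mul hy1V hy1U)) (geO_mul hy1U hy1U)))) (by linarith))
  exact geO_neg (geO_add (geO_add (geO_add (geO_add (geO_add (geO_add k1 k2) k3) k4) k5) k6) k7)

theorem pf_INDS (hEXD : T_EXD) : T_INDS := by
  intro k O _ _ _ _ ε X G dX dG hF A b a c hc hcG hcL hcb hcA
  obtain ⟨α, hα⟩ : ∃ α : HS k, α = c (dG (b 0)) := ⟨_, rfl⟩
  obtain ⟨β, hβ⟩ : ∃ β : HS k, β = c (b 1) := ⟨_, rfl⟩
  have hα0 : geO 0 α := by
    rw [hα]
    exact hc.int _
  have hβ0 : geO 0 β := by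
    rw [hβ]
    exact hc.int _
  -- the common part
  have main : ∀ x1 x2 : O →ₐ[k] HS k, Pnt X G x1 → Pnt X G x2 → Near a (x1 G) → Near a (x2 G) →
      SolO A b G x1 → SolO A b G x2 → ∀ ν : ℚ, IsO (x2 G - x1 G) ν → ∃ r : ℚ, (a : ℚ) < r ∧
      geO (ν + r - 2) (c A * y2 (x2 G - x1 G) + (x2 G - x1 G) * α + y1 (x2 G - x1 G) * β) := by
    intro x1 x2 hx1 hx2 hU hV sU sV ν hν
    obtain ⟨hU1, r1, hr1, hU2⟩ := hU
    obtain ⟨hV1, r2, hr2, hV2⟩ := hV
    have hr : (a : ℚ) < min r1 r2 := lt_min hr1 hr2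
    have hUr : geO (max 1 (min r1 r2)) (x1 G) := by
      rcases le_total (1 : ℚ) (min r1 r2) with h1 | h1
      · rw [max_eq_right h1]
        exact geO_mono hU2 (min_le_left _ _)
      · rw [max_eq_left h1]
        exact hU1
    have hVr : geO (max 1 (min r1 r2)) (x2 G) := by
      rcases le_total (1 : ℚ) (min r1 r2) with h1 | h1
      · rw [max_eq_right h1]
        exact geO_mono hV2 (min_le_right _ _)
      · rw [max_eq_left h1]
        exact hV1
    refine ⟨max 1 (min r1 r2), lt_of_lt_of_le hr (le_max_right _ _), ?_⟩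
    rw [hα, hβ]
    exact mainS hEXD hF A b c x1 x2 hc hcG hx1 hx2 _ (le_max_left _ _) hUr hVr sU sV ν hν.2
  have hA0 := hcA.1
  rcases cases2 α β ((a : ℚ) - 2) with ⟨j, hj, hjα, hjβ, hne⟩ | ⟨hα2, hβ2⟩
  · refine ⟨Polynomial.C (cf α j) + Polynomial.C (cf β (j + 1)) * Polynomial.X, ?_, ?_, ?_⟩
    · intro h0
      have c0 := congrArg (fun P => Polynomial.coeff P 0) h0
      have c1 := congrArg (fun P => Polynomial.coeff P 1) h0
      simp at c0 c1
      rcases hne with h1 | h1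
      · exact h1 c0
      · exact h1 c1
    · intro ha
      exfalso
      rw [ha] at hj
      push_cast at hj
      rcases hne with h1 | h1
      · exact h1 (hα0 j (by linarith))
      · exact h1 (hβ0 (j + 1) (by linarith))
    · intro x1 x2 hx1 hx2 hU hV sU sV ν hν
      obtain ⟨r, hr, hF'⟩ := main x1 x2 hx1 hx2 hU hV sU sV ν hν
      have h1 := hF' (ν + j) (by linarith)
      rw [cf_add, cf_add] at h1
      have g1 : cf (c A * y2 (x2 G - x1 G)) (ν + j) = 0 :=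
        geO_mul hcA.2 (geO_y2 hν.2) _ (by linarith)
      have g2 : cf ((x2 G - x1 G) * α) (ν + j) = cf (x2 G - x1 G) ν * cf α j :=
        (cf_mul_low hν.2 hjα).2
      have g3 : cf (y1 (x2 G - x1 G) * β) (ν + j) =
          (ν : k) * cf (x2 G - x1 G) ν * cf β (j + 1) := by
        have g4 := (cf_mul_low (geO_y1 hν.2) hjβ).2
        have e : ν - 1 + (j + 1) = ν + j := by ring
        rw [e, cf_y1, sub_add_cancel] at g4
        exact g4
      rw [g1, g2, g3] at h1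
      have g5 : cf (x2 G - x1 G) ν * (cf α j + cf β (j + 1) * (ν : k)) = 0 := by
        linear_combination h1
      rcases mul_eq_zero.1 g5 with g6 | g6
      · exact absurd g6 hν.1
      · simp only [Polynomial.eval_add, Polynomial.eval_C, Polynomial.eval_mul, Polynomial.eval_X]
        exact g6
  · obtain ⟨A0, hA0e⟩ : ∃ A0 : k, A0 = cf (c A) (a : ℚ) := ⟨_, rfl⟩
    rw [← hA0e] at hA0
    obtain ⟨c0, hc0⟩ : ∃ c0 : k, c0 = cf α ((a : ℚ) - 2) := ⟨_, rfl⟩
    obtain ⟨c1, hc1⟩ : ∃ c1 : k, c1 = cf β ((a : ℚ) - 2 + 1) := ⟨_, rfl⟩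
    refine ⟨Polynomial.X ^ 2 - Polynomial.X + Polynomial.C (c0 / A0) +
      Polynomial.C (c1 / A0) * Polynomial.X, ?_, ?_, ?_⟩
    · intro h0
      have h2 := congrArg (fun P => Polynomial.coeff P 2) h0
      simp [Polynomial.coeff_X] at h2
    · intro ha
      have h1 : c0 = 0 := by
        rw [hc0, ha]
        exact hα0 _ (by norm_num)
      have h2 : c1 = 0 := by
        rw [hc1, ha]
        exact hβ0 _ (by norm_num)
      rw [h1, h2]
      simp
    · intro x1 x2 hx1 hx2 hU hV sU sV ν hν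
      obtain ⟨r, hr, hF'⟩ := main x1 x2 hx1 hx2 hU hV sU sV ν hν
      have h1 := hF' (ν + (a - 2)) (by linarith)
      rw [cf_add, cf_add] at h1
      have g1 : cf (c A * y2 (x2 G - x1 G)) (ν + (a - 2)) =
          A0 * ((ν : k) * ((ν : k) - 1) * cf (x2 G - x1 G) ν) := by
        have g4 := (cf_mul_low hcA.2 (geO_y2 hν.2)).2
        have e : (a : ℚ) + (ν - 2) = ν + (a - 2) := by ring
        rw [e, cf_y2, sub_add_cancel, ← hA0e] at g4
        rw [g4]
        push_cast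
        ring
      have g2 : cf ((x2 G - x1 G) * α) (ν + (a - 2)) = cf (x2 G - x1 G) ν * c0 := by
        rw [hc0]
        exact (cf_mul_low hν.2 hα2).2
      have g3 : cf (y1 (x2 G - x1 G) * β) (ν + (a - 2)) =
          (ν : k) * cf (x2 G - x1 G) ν * c1 := by
        have g4 := (cf_mul_low (geO_y1 hν.2) hβ2).2
        have e : ν - 1 + ((a : ℚ) - 2 + 1) = ν + (a - 2) := by ring
        rw [e, cf_y1, sub_add_cancel, ← hc1] at g4
        exact g4
      rw [g1, g2, g3] at h1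
      have g5 : cf (x2 G - x1 G) ν * (A0 * ((ν : k) ^ 2 - ν) + c0 + c1 * (ν : k)) = 0 := by
        linear_combination h1
      rcases mul_eq_zero.1 g5 with g6 | g6
      · exact absurd g6 hν.1
      · simp only [Polynomial.eval_add, Polynomial.eval_C, Polynomial.eval_mul, Polynomial.eval_X,
          Polynomial.eval_sub, Polynomial.eval_pow]
        have g7 : A0 * (ν ^ 2 - ν + c0 / A0 + c1 / A0 * (ν : k)) = 0 := by
          rw [← g6]
          field_simp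
        rcases mul_eq_zero.1 g7 with g8 | g8
        · exact absurd g8 hA0
        · exact g8

end Pool.Agent.H86.SF
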