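import Pool.Agent.H45.SF.GT

/-!
Module G0 of the board sf_modules (MP_3b3fc8_lc): larger parameters of a good morphism.
-/

set_option autoImplicit false

open Ordinal Cardinal Order Set
open scoped ZFSet

namespace SF.H86

open SF

theorem bmap_le {N' N B : V} [IsCBA B] {b : El B} {σ : V → V → El B} (h : BMap N' N b σ)
    (x y : V) : σ x y ≤ b := by
  by_cases h0 : σ x y = ⊥
  · rw [h0]; exact bot_le
  · rw [← h.tot x (h.dom x y h0).1]
    exact le_iSup (fun y => σ x y) y

theorem pf_G0 (hAP : T_AP) : T_G0 := by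
  intro A C h p hgood r
  have key : ∀ (s t : V) (F : Frame h (ZFSet.pair s t)), ∃ x x2, F.p' = ZFSet.pair x x2 ∧
      F.σ x s = F.b ∧ F.σ x2 t = F.b := by
    intro s t F
    have hne : F.σ F.p' (ZFSet.pair s t) ≠ ⊥ := by rw [F.kp]; exact F.ne
    obtain ⟨x, -, x2, -, hx, hle⟩ :=
      (hAP A.B F.N' F.N F.b F.σ F.np F.map F.ne).2.1 F.p' s t hne
    rw [F.kp] at hle
    refine ⟨x, x2, hx, le_antisymm (bmap_le F.map x s) (le_trans hle inf_le_left),
      le_antisymm (bmap_le F.map x2 t) (le_trans hle inf_le_right)⟩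
  refine ⟨?_, ?_⟩
  · intro F q hq
    obtain ⟨x, x2, -, hx, -⟩ := key p r F
    obtain ⟨c, σ', hl⟩ := hgood
      { N' := F.N', N := F.N, b := F.b, σ := F.σ, w := F.w, B' := F.B', C' := F.C', h' := F.h',
        p' := x, G' := F.G', np := F.np, ne := F.ne, map := F.map, kw := F.kw, kB := F.kB,
        kC := F.kC, kh := F.kh, kp := hx, gen := F.gen, top := F.top, com := F.com, sc := F.sc }
      q hq
    exact ⟨c, σ', ⟨hl.le, hl.proj, hl.map, hl.com, hl.keep⟩⟩
  · intro F q hq
    obtain ⟨x, x2, -, -, hx⟩ := key r p F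
    obtain ⟨c, σ', hl⟩ := hgood
      { N' := F.N', N := F.N, b := F.b, σ := F.σ, w := F.w, B' := F.B', C' := F.C', h' := F.h',
        p' := x2, G' := F.G', np := F.np, ne := F.ne, map := F.map, kw := F.kw, kB := F.kB,
        kC := F.kC, kh := F.kh, kp := hx, gen := F.gen, top := F.top, com := F.com, sc := F.sc }
      q hq
    exact ⟨c, σ', ⟨hl.le, hl.proj, hl.map, hl.com, hl.keep⟩⟩

end SF.H86
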